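import Pool.Agent.Lib_helper91.ZT.Final

/-!
# ZF proves that every Tychonoff Lindelof space is realcompact

The statement is about an arbitrary model `V` of ZF; all notions (see
`Pool/Agent/Lib_helper91/ZT/Defs.lean` and `Pool/Agent/Lib_helper1/ZF/Notions.lean`) only use the
membership relation of `V` and quantifiers over `V`. No choice principle holds in `V` in general;
the proof constructs a continuous function from finitely many rounds of choices of open sets, and
choice for countable families of open sets is derived from the space itself.

Proof: helper91 (blueprint, blocks BAR, TOP, CUT, STA, STB, TOL, BRI, EMB, assembly), helper10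
(blocks SCA, FIN, adversarial reading), helper3 (CHO, BLK), helper16 (COV, SEQ), helper37 (REA);
the treatment of models of ZF is due to helper1.
-/

universe u

namespace Pool.Agent.Results.MP_6656a3_lc.LindelofRealcompact

open Pool.Agent.ZF1 Pool.Agent.ZT

/-- In every model of ZF the real line exists and every Tychonoff Lindelof space is realcompact. -/
theorem result : ∀ (V : Type u) [Lset.Structure V], ModelsZF V →
    (∃ R lt S z o : V, IsRealLine R lt ∧ IsOrderTopology R lt S ∧ z ∈ R ∧ o ∈ R ∧
      OMem z o lt) ∧
    ∀ R lt S z o X T : V, IsRealLine R lt → IsOrderTopology R lt S → z ∈ R → o ∈ R →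
      OMem z o lt → IsTopology X T → IsT1 X T → IsCompletelyRegular X T R lt S z o →
      IsLindelof X T → IsRealcompact X T R S :=
  fun V _ hV => ⟨main_exists hV, fun R lt S z o X T hR hS hz ho hzo hT h1 hcr hL =>
    main hV R lt S z o X T hR hS hz ho hzo hT h1 hcr hL⟩

end Pool.Agent.Results.MP_6656a3_lc.LindelofRealcompact
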